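import Pool.Agent.H47.ST.Targets

/-!
# The sum over one level of one block (row ZS of stk_modules)
-/

set_option autoImplicit false

namespace Pool.Agent.H2.STK

open Finset Pool.Agent.H47.ST

theorem top_eq (h : ℕ) (B : List ℕ) : top h B = max h (top 0 B) := by
  induction B generalizing h with
  | nil => simp [top]
  | cons r B ih =>
    rw [top, top, ih (max h (r + 1)), ih (max 0 (r + 1))]
    omega

theorem top_cons (r : ℕ) (B : List ℕ) : top 0 (r :: B) = max (r + 1) (top 0 B) := by
  rw [top, top_eq]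
  omega

theorem top_le_iff (c : ℕ) (B : List ℕ) : top 0 B ≤ c + 1 ↔ ∀ r ∈ B, r ≤ c := by
  induction B with
  | nil => simp [top]
  | cons r B ih =>
    rw [top_cons, max_le_iff, ih]
    simp

/-- the sum with the context `Z` (the elements before, last one first) -/
noncomputable def F (R c : ℕ) (W : ℝ) (Z B : List ℕ) : ℝ :=
  ∑ p ∈ range (B.length + 1), if top 0 (B.drop p) = c + 1 then
    1 / (Real.exp (2 * (zM c (Z.reverse ++ B.take p) (B.drop p) : ℝ) / R) *
      W ^ zK c (Z.reverse ++ B.take p)) else 0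

/-- length of the last run of elements smaller than `c` -/
def la (c : ℕ) (Z : List ℕ) : ℕ := (Z.takeWhile (fun r => decide (r < c))).length

/-- number of the elements `c` in the last run -/
def ka (c : ℕ) (Z : List ℕ) : ℕ := (Z.takeWhile (fun r => decide (r ≤ c))).count c

theorem F_nil (R c : ℕ) (W : ℝ) (Z : List ℕ) : F R c W Z [] = 0 := by
  unfold F
  simp [top]

theorem F_cons (R c : ℕ) (W : ℝ) (Z : List ℕ) (r : ℕ) (B : List ℕ) :
    F R c W Z (r :: B) = (if top 0 (r :: B) = c + 1 then
      1 / (Real.exp (2 * ((la c Z + la c (r :: B) + 1 : ℕ) : ℝ) / R) * W ^ ka c Z) else 0) +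
      F R c W (r :: Z) B := by
  unfold F
  rw [List.length_cons, Finset.sum_range_succ']
  rw [add_comm]
  congr 1
  · simp only [List.drop_zero, List.take_zero, List.append_nil, zM, zK, List.reverse_reverse, la, ka]
  · apply Finset.sum_congr rfl
    intro p _
    simp only [List.drop_succ_cons, List.take_succ_cons, List.reverse_cons, List.append_assoc,
      List.singleton_append]

theorem la_lt (c r : ℕ) (Z : List ℕ) (h : r < c) : la c (r :: Z) = la c Z + 1 := by
  simp [la, h]

theorem la_ge (c r : ℕ) (Z : List ℕ) (h : c ≤ r) : la c (r :: Z) = 0 := by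
  simp [la, h]

theorem ka_lt (c r : ℕ) (Z : List ℕ) (h : r < c) : ka c (r :: Z) = ka c Z := by
  have h1 : r ≤ c := h.le
  have h2 : r ≠ c := h.ne
  simp [ka, h1, h2]

theorem ka_eq (c : ℕ) (Z : List ℕ) : ka c (c :: Z) = ka c Z + 1 := by
  simp [ka]

theorem bnd (R : ℕ) (hR : 1 ≤ R) (M : ℕ) :
    (M : ℝ) * (1 / Real.exp (2 * (M : ℝ) / R)) ≤ R / (2 * Real.exp 1) := by
  have hR0 : (0 : ℝ) < R := by exact_mod_cast hR
  have h1 : 2 * (M : ℝ) / R ≤ Real.exp (2 * (M : ℝ) / R) / Real.exp 1 := by
    have h := Real.add_one_le_exp (2 * (M : ℝ) / R - 1)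
    rw [Real.exp_sub] at h
    linarith
  have h2 : (M : ℝ) = (2 * (M : ℝ) / R) * (R / 2) := by field_simp
  have hE : 0 < Real.exp (2 * (M : ℝ) / R) := Real.exp_pos _
  rw [mul_one_div, div_le_iff₀ hE]
  calc (M : ℝ) = (2 * (M : ℝ) / R) * (R / 2) := h2
    _ ≤ (Real.exp (2 * (M : ℝ) / R) / Real.exp 1) * (R / 2) :=
        mul_le_mul_of_nonneg_right h1 (by positivity)
    _ = R / (2 * Real.exp 1) * Real.exp (2 * (M : ℝ) / R) := by
        field_simp

/-- all elements at most `c` -/
theorem low (R c : ℕ) (W : ℝ) (hR : 1 ≤ R) (hW : 1 < W) (B : List ℕ) :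
    (∀ r ∈ B, r ≤ c) → ∀ Z : List ℕ,
    F R c W Z B ≤ ((la c B + 1 : ℕ) : ℝ) *
      (1 / Real.exp (2 * ((la c Z + la c B + 1 : ℕ) : ℝ) / R)) * (1 / W ^ ka c Z) +
      R / (2 * Real.exp 1) * (W / (W - 1)) * (1 / W ^ (ka c Z + 1)) := by
  have hW0 : 0 < W := by linarith
  have hW1 : 0 < W - 1 := by linarith
  have hR0 : (0 : ℝ) < R := by exact_mod_cast hR
  have hE := Real.exp_pos 1
  induction B with
  | nil =>
    intro _ Z
    rw [F_nil]
    positivity
  | cons r B ih =>
    intro hB Z
    have hr : r ≤ c := hB r (by simp)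
    have hB' : ∀ r ∈ B, r ≤ c := fun x hx => hB x (by simp [hx])
    have ih' := ih hB' (r :: Z)
    rw [F_cons]
    have hif : (if top 0 (r :: B) = c + 1 then
      1 / (Real.exp (2 * ((la c Z + la c (r :: B) + 1 : ℕ) : ℝ) / R) * W ^ ka c Z) else 0) ≤
      (1 / Real.exp (2 * ((la c Z + la c (r :: B) + 1 : ℕ) : ℝ) / R)) * (1 / W ^ ka c Z) := by
      split_ifs
      · rw [one_div_mul_one_div]
      · positivity
    rcases lt_or_eq_of_le hr with h | h
    · rw [la_lt c r Z h, ka_lt c r Z h] at ih'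
      rw [la_lt c r B h] at hif ⊢
      have e1 : la c Z + 1 + la c B + 1 = la c Z + (la c B + 1) + 1 := by omega
      rw [e1] at ih'
      refine (add_le_add hif ih').trans (le_of_eq ?_)
      push_cast
      ring
    · subst h
      rw [la_ge r r Z le_rfl, ka_eq] at ih'
      rw [la_ge r r B le_rfl] at hif ⊢
      refine (add_le_add hif ih').trans ?_
      have h3 : ((la r B + 1 : ℕ) : ℝ) *
          (1 / Real.exp (2 * ((0 + la r B + 1 : ℕ) : ℝ) / R)) ≤ R / (2 * Real.exp 1) := by
        rw [zero_add]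
        exact bnd R hR _
      have h4 : ((la r B + 1 : ℕ) : ℝ) *
          (1 / Real.exp (2 * ((0 + la r B + 1 : ℕ) : ℝ) / R)) * (1 / W ^ (ka r Z + 1)) +
          R / (2 * Real.exp 1) * (W / (W - 1)) * (1 / W ^ (ka r Z + 1 + 1)) ≤
          R / (2 * Real.exp 1) * (W / (W - 1)) * (1 / W ^ (ka r Z + 1)) := by
        have h5 := mul_le_mul_of_nonneg_right h3
          (show (0 : ℝ) ≤ 1 / W ^ (ka r Z + 1) by positivity)
        refine (add_le_add h5 le_rfl).trans (le_of_eq ?_)
        rw [pow_succ W (ka r Z + 1)]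
        field_simp
        ring
      push_cast at h4 ⊢
      linarith

/-- the general bound -/
theorem all (R c : ℕ) (W : ℝ) (hR : 1 ≤ R) (hW : 1 < W) (B : List ℕ) :
    ∀ Z : List ℕ, F R c W Z B ≤ R / (2 * Real.exp 1) * (W / (W - 1)) := by
  have hW0 : 0 < W := by linarith
  have hW1 : 0 < W - 1 := by linarith
  have hR0 : (0 : ℝ) < R := by exact_mod_cast hR
  have hE := Real.exp_pos 1
  induction B with
  | nil =>
    intro Z
    rw [F_nil]
    positivity
  | cons r B ih =>
    intro Z
    by_cases hB : ∀ x ∈ r :: B, x ≤ c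
    · refine (low R c W hR hW (r :: B) hB Z).trans ?_
      have h3 : ((la c (r :: B) + 1 : ℕ) : ℝ) *
          (1 / Real.exp (2 * ((la c Z + la c (r :: B) + 1 : ℕ) : ℝ) / R)) ≤
          R / (2 * Real.exp 1) := by
        refine le_trans ?_ (bnd R hR (la c Z + la c (r :: B) + 1))
        apply mul_le_mul_of_nonneg_right
        · push_cast
          have : (0 : ℝ) ≤ (la c Z : ℝ) := Nat.cast_nonneg _
          linarith
        · positivity
      have hp : 1 / W ^ ka c Z ≤ 1 := by
        rw [div_le_one (by positivity)]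
        exact one_le_pow₀ hW.le
      have h5 := mul_le_mul_of_nonneg_right h3 (show (0 : ℝ) ≤ 1 / W ^ ka c Z by positivity)
      have h6 : R / (2 * Real.exp 1) * (1 / W ^ ka c Z) +
          R / (2 * Real.exp 1) * (W / (W - 1)) * (1 / W ^ (ka c Z + 1)) =
          R / (2 * Real.exp 1) * (W / (W - 1)) * (1 / W ^ ka c Z) := by
        rw [pow_succ]
        field_simp
        ring
      refine (add_le_add h5 le_rfl).trans ?_
      rw [h6]
      exact mul_le_of_le_one_right (by positivity) hp
    · have ht : top 0 (r :: B) ≠ c + 1 := by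
        intro h
        exact hB ((top_le_iff c _).mp h.le)
      rw [F_cons, if_neg ht, zero_add]
      exact ih _

theorem pf_ZS : T_ZS := by
  intro R c W B hR hW
  have h := all R c W hR hW B []
  unfold F at h
  simpa using h

end Pool.Agent.H2.STK
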